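import Pool.Agent.Q22.EC.Defs

universe u

namespace Pool.Agent.Q22.EC

open Cardinal Monoid

/-- JOB AMALG: amalgamated product of two groups, factor stability and the lemma on a malnormal
amalgamated subgroup of index two. -/
def S_AMALG : Prop :=
  ∀ (N A B : Type u) [Group N] [Group A] [Group B] (φ : N →* A) (ψ : N →* B),
    Function.Injective φ → Function.Injective ψ →
    ∃ (Γ : Type u) (_ : Group Γ) (a : A →* Γ) (b : B →* Γ),
      Function.Injective a ∧ Function.Injective b ∧ (∀ n, a (φ n) = b (ψ n)) ∧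
      (Subgroup.closure (Set.range a ∪ Set.range b) = ⊤) ∧
      (∀ (L : Type u) [Group L] (f : A →* L) (g : B →* L), (∀ n, f (φ n) = g (ψ n)) →
        ∃ h : Γ →* L, (∀ x, h (a x) = f x) ∧ ∀ y, h (b y) = g y) ∧
      -- factor stability
      (∀ S : Set A, (∀ x : A, ∃ s ∈ S, x⁻¹ * s * x ∉ φ.range) →
        ∀ g : Γ, (∀ s ∈ S, g⁻¹ * a s * g ∈ a.range) → g ∈ a.range) ∧
      -- malnormal amalgamated subgroup, `B = ψ N ∪ t ψ N`
      ((∀ c : N, c ≠ 1 → ∀ x : A, x⁻¹ * φ c * x ∈ φ.range → x ∈ φ.range) →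
        ∀ t : B, (∀ y : B, y ∈ ψ.range ∨ ∃ c, y = t * ψ c) →
        ∀ c : N, c ≠ 1 → ∀ g : Γ, g⁻¹ * a (φ c) * g ∈ a.range →
          g ∈ a.range ∨ ∃ x : A, g = b t * a x)

/-- JOB COP: free products: the factors are malnormal; centralizers in `G * F`. -/
def S_COP : Prop :=
  (∀ (A B : Type u) [Group A] [Group B] (b : B), b ≠ 1 → ∀ p : Coprod A B,
    p⁻¹ * Coprod.inr b * p ∈ (Coprod.inr : B →* Coprod A B).range →
      p ∈ (Coprod.inr : B →* Coprod A B).range) ∧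
  (∀ (A B : Type u) [Group A] [Group B] (a : A), a ≠ 1 → ∀ p : Coprod A B,
    p⁻¹ * Coprod.inl a * p ∈ (Coprod.inl : A →* Coprod A B).range →
      p ∈ (Coprod.inl : A →* Coprod A B).range) ∧
  (∀ (A X : Type u) [Group A] (x y : X), x ≠ y → ∀ p : Coprod A (FreeGroup X),
    p * Coprod.inr (FreeGroup.of x) = Coprod.inr (FreeGroup.of x) * p →
    p * Coprod.inr (FreeGroup.of y) = Coprod.inr (FreeGroup.of y) * p → p = 1)

/-- JOB AMALGI: amalgamated product of many groups over one subgroup `H`. -/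
def S_AMALGI : Prop :=
  ∀ (Q H : Type u) [Group H] (K : Q → Type u) [∀ i, Group (K i)] (φ : ∀ i, H →* K i),
    (∀ i, Function.Injective (φ i)) →
    ∃ (Γ : Type u) (_ : Group Γ) (b : H →* Γ) (o : ∀ i, K i →* Γ),
      Function.Injective b ∧ (∀ i, Function.Injective (o i)) ∧ (∀ i x, o i (φ i x) = b x) ∧
      (Subgroup.closure (Set.range b ∪ ⋃ i, Set.range (o i)) = ⊤) ∧
      (∀ S : Set H, (∀ i, ∀ k : K i, (∀ s ∈ S, k⁻¹ * φ i s * k ∈ (φ i).range) → k ∈ (φ i).range) →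
        ∀ g : Γ, (∀ s ∈ S, g⁻¹ * b s * g ∈ b.range) → g ∈ b.range) ∧
      (∀ (S : Set H) (τ : ∀ i, K i) (f : Q → H → H),
        (∀ i, ∀ s ∈ S, (τ i)⁻¹ * φ i s * τ i = φ i (f i s)) →
        (∀ i, ∀ k : K i, (∀ s ∈ S, k⁻¹ * φ i s * k ∈ (φ i).range) →
          k ∈ (φ i).range ∨ ∃ y ∈ (φ i).range, k = τ i * y) →
        (∀ i j, i ≠ j → ∀ k : K j, (∀ s ∈ S, k⁻¹ * φ j (f i s) * k ∈ (φ j).range) →
          k ∈ (φ j).range) →
        ∀ g : Γ, (∀ s ∈ S, g⁻¹ * b s * g ∈ b.range) →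
          g ∈ b.range ∨ ∃ i, ∃ y ∈ b.range, g = o i (τ i) * y)

/-- JOB P: the group `P = H *_N M`. -/
def S_P : Prop :=
  ∀ (κ : Cardinal.{u}) (I : Type u), ℵ₀ ≤ κ → κ < #I →
  ∀ (G : Type u) [Group G] (N : Subgroup G), #N ≤ κ →
  ∀ (M : Type u) [Group M] (j : N →* M), Function.Injective j →
  ∀ (x : I → M) (r : I → Bool),
    ∃ (P : Type u) (_ : Group P) (h : HG G I →* P) (m : M →* P) (ψ : CC I →* P),
      Function.Injective h ∧ Function.Injective m ∧ Function.Injective ψ ∧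
      (∀ n : N, m (j n) = h (Coprod.inl (n : G))) ∧
      (Subgroup.closure (Set.range h ∪ Set.range m) = ⊤) ∧
      (∀ v i, ψ (FreeGroup.of ((v, i), false)) = h (eH G v i)) ∧
      (∀ v i, ψ (FreeGroup.of ((v, i), true)) = m (x v) * h (zH G v i (r i)) * (m (x v))⁻¹) ∧
      (∀ S : Set (HG G I), κ < #S → ∀ p : P, (∀ s ∈ S, p⁻¹ * h s * p ∈ h.range) → p ∈ h.range) ∧
      (∀ c : CC I, c ≠ 1 → ∀ p : P, p⁻¹ * ψ c * p ∈ ψ.range → p ∈ ψ.range) ∧
      (∀ (p : P) (s : G), s ≠ 1 → p⁻¹ * h (Coprod.inl s) * p ∉ ψ.range) ∧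
      (∀ (p : P) (v i : I) (b : Bool), b ≠ r i → p⁻¹ * h (zH G v i b) * p ∉ ψ.range)

/-- JOB LOCAL: the group `K = P *_C (C ⋊ ℤ/2)` (from AMALG and P). -/
def S_LOCAL : Prop :=
  ∀ (κ : Cardinal.{u}) (I : Type u), ℵ₀ ≤ κ → κ < #I →
  ∀ (G : Type u) [Group G] (N : Subgroup G), #N ≤ κ →
  ∀ (M : Type u) [Group M] (j : N →* M), Function.Injective j →
  ∀ (x : I → M) (r : I → Bool),
    ∃ (K : Type u) (_ : Group K) (h : HG G I →* K) (m : M →* K) (t : K),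
      Function.Injective h ∧ Function.Injective m ∧
      (∀ n : N, m (j n) = h (Coprod.inl (n : G))) ∧
      (Subgroup.closure (Set.range h ∪ Set.range m ∪ {t}) = ⊤) ∧
      (∀ v i, t⁻¹ * h (eH G v i) * t = m (x v) * h (zH G v i (r i)) * (m (x v))⁻¹) ∧
      (∀ S : Set G, κ < #S → ∀ k : K,
        (∀ s ∈ S, k⁻¹ * h (Coprod.inl s) * k ∈ h.range) → k ∈ h.range) ∧
      (∀ (v : I) (k : K), (∀ i, k⁻¹ * h (eH G v i) * k ∈ h.range) →
        k ∈ h.range ∨ ∃ y ∈ h.range, k = t * m (x v) * y) ∧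
      (∀ (v : I) (r' : I → Bool), r' ≠ r → ∀ k : K,
        (∀ i, k⁻¹ * h (zH G v i (r' i)) * k ∈ h.range) → k ∈ h.range)

/-- JOB SYS: a solvable system lives over a small subgroup `N` and in a small overgroup `M`. -/
def S_SYS : Prop :=
  ∀ (κ : Cardinal.{u}) (V : Type u), ℵ₀ ≤ κ → #V ≤ κ → ∀ (G : Type u) [Group G] (c : Sys G V),
    Solvable c →
    ∃ (N : Subgroup G) (M : Type u) (_ : Group M) (j : N →* M) (a : V → M),
      #N ≤ κ ∧ #M ≤ κ ∧ Function.Injective j ∧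
      ∀ (L : Type u) [Group L] (f : G →* L) (m : M →* L), Function.Injective m →
        (∀ n : N, m (j n) = f n) → Solves f (fun v => m (a v)) c

/-- JOB STEP (from LOCAL, AMALGI, COP, SYS) -/
def S_STEP : Prop :=
  ∀ (κ : Cardinal.{u}) (I V : Type u), ℵ₀ ≤ κ → #V ≤ κ → κ < #I →
  ∀ (G : Type u) [Group G], #G ≤ 2 ^ #I →
    ∃ (G' : Type u) (_ : Group G') (ι : G →* G') (D : Set G') (E : I → Set G'),
      StepRel κ I V ι D E ∧ #G' ≤ 2 ^ #I

/-- JOB ITER: transfinite iteration of group extensions. -/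
def S_ITER : Prop :=
  ∀ (J : Type u) [LinearOrder J] [WellFoundedLT J] [Nonempty J] (lam : Cardinal.{u}),
    ℵ₀ ≤ lam → #J ≤ lam →
  ∀ (R : ∀ (G G' : Type u) [Group G] [Group G'], (G →* G') → Prop),
    (∀ (G : Type u) [Group G], #G ≤ lam →
      ∃ (G' : Type u) (_ : Group G') (ι : G →* G'), Function.Injective ι ∧ #G' ≤ lam ∧
        R G G' ι) →
    ∃ (Γ : Type u) (_ : Group Γ) (U : J → Subgroup Γ), Monotone U ∧ (∀ g, ∃ j, g ∈ U j) ∧
      #Γ ≤ lam ∧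
      ∀ j, ∃ (G G' : Type u) (_ : Group G) (_ : Group G') (ι : G →* G') (e : G' →* Γ),
        R G G' ι ∧ Function.Injective ι ∧ Function.Injective e ∧
        (e.comp ι).range = ⨆ i : {i // i < j}, U i.1 ∧ e.range = U j

/-- JOB TOWER (from STEP and ITER) -/
def S_TOWER : Prop :=
  ∀ (κ : Cardinal.{u}) (I V : Type u), κ.IsRegular → #V ≤ κ → κ < #I →
    ∃ (Γ : Type u) (_ : Group Γ), #Γ = 2 ^ #I ∧
      (∃ D : Set Γ, #D ≤ #I ∧ ∀ φ : Γ →* Γ, (∀ d ∈ D, φ d = d) → ∀ g, φ g = g) ∧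
      ∀ A : Set Γ, #A < κ → ∃ U : Subgroup Γ, A ⊆ U ∧
        ∀ c : Sys U V, Solvable c → ∃ a : V → Γ, Solves U.subtype a c

/-- JOB FIN (from TOWER): the final theorem -/
def S_FINAL : Prop :=
  ∀ κ : Cardinal.{u}, κ.IsRegular →
    ∃ (G : Type u) (_ : Group G), IsEC κ G ∧ κ < #G ∧ #(MulAut G) < 2 ^ #G

end Pool.Agent.Q22.EC
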