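import Pool.Agent.Q22.EC.Stm

/-!
JOB LOCAL: `theorem local' (ha : S_AMALG) (hp : S_P) : S_LOCAL`.
-/

universe u

namespace Pool.Agent.Q22.EC

open Cardinal Monoid

/-- the swap automorphism of `CC I` -/
def swapC (I : Type u) : CC I ≃* CC I :=
  FreeGroup.freeGroupCongr (Equiv.prodCongr (Equiv.refl (I × I)) Equiv.boolNot)

theorem swapC_of {I : Type u} (y : I × I) (b : Bool) :
    swapC I (FreeGroup.of (y, b)) = FreeGroup.of (y, !b) := by
  simp [swapC]

theorem swapC_swapC {I : Type u} (c : CC I) : swapC I (swapC I c) = c := by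
  have : ((swapC I).toMonoidHom.comp (swapC I).toMonoidHom) = MonoidHom.id (CC I) := by
    ext ⟨y, b⟩
    simp [swapC_of]
  exact DFunLike.congr_fun this c

/-- the action of `ℤ/2` -/
def actC (I : Type u) : Multiplicative (ZMod 2) →* MulAut (CC I) where
  toFun z := if z = 1 then 1 else swapC I
  map_one' := by simp
  map_mul' := by
    intro a b
    have h : ∀ a b : Multiplicative (ZMod 2), a ≠ 1 → b ≠ 1 → a * b = 1 := by decide
    by_cases ha : a = 1
    · simp [ha]
    · by_cases hb : b = 1
      · simp [hb, ha]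
      · rw [if_neg ha, if_neg hb, if_pos (h a b ha hb)]
        ext c
        simp [swapC_swapC]

/-- `W = C ⋊ ℤ/2` -/
abbrev WW (I : Type u) : Type u := CC I ⋊[actC I] Multiplicative (ZMod 2)

/-- the generator `t` -/
def tW (I : Type u) : WW I := SemidirectProduct.inr (Multiplicative.ofAdd (1 : ZMod 2))

theorem tW_conj {I : Type u} (c : CC I) :
    (tW I)⁻¹ * SemidirectProduct.inl c * tW I = SemidirectProduct.inl (swapC I c) := by
  have h1 : (tW I)⁻¹ = tW I := by
    unfold tW
    rw [← map_inv]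
    congr 1
  rw [h1]
  have h2 : tW I * SemidirectProduct.inl c * (tW I)⁻¹ =
      SemidirectProduct.inl (actC I (Multiplicative.ofAdd (1 : ZMod 2)) c) := by
    unfold tW
    rw [SemidirectProduct.inl_aut, map_inv]
  rw [h1] at h2
  rw [h2]
  congr 1

theorem tW_cases {I : Type u} (y : WW I) :
    y ∈ (SemidirectProduct.inl : CC I →* WW I).range ∨ ∃ c, y = tW I * SemidirectProduct.inl c := by
  have h : ∀ a : Multiplicative (ZMod 2), a = 1 ∨ a = Multiplicative.ofAdd (1 : ZMod 2) := by
    decide
  rcases h y.right with hy | hy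
  · left
    refine ⟨y.left, ?_⟩
    ext
    · simp
    · simp [hy]
  · right
    refine ⟨swapC I y.left, ?_⟩
    have h1 := tW_conj (I := I) (swapC I y.left)
    rw [swapC_swapC] at h1
    have h2 : tW I * SemidirectProduct.inl (swapC I y.left) =
        SemidirectProduct.inl y.left * tW I := by
      have h3 : (tW I)⁻¹ = tW I := by
        unfold tW
        rw [← map_inv]
        congr 1
      rw [← h1, h3]
      simp only [mul_assoc]
      have h4 : tW I * tW I = 1 := by
        nth_rewrite 1 [← h3]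
        simp
      rw [h4, mul_one]
    rw [h2]
    ext
    · simp [tW]
    · simp [tW, hy]

theorem closure_WW (I : Type u) :
    Subgroup.closure (Set.range (SemidirectProduct.inl : CC I →* WW I) ∪ {tW I}) = ⊤ := by
  rw [eq_top_iff]
  rintro y -
  rcases tW_cases y with ⟨c, rfl⟩ | ⟨c, rfl⟩
  · exact Subgroup.subset_closure (Or.inl ⟨c, rfl⟩)
  · exact mul_mem (Subgroup.subset_closure (Or.inr rfl)) (Subgroup.subset_closure (Or.inl ⟨c, rfl⟩))

theorem emb_inj_e {G : Type u} [Group G] {I : Type u} (v : I) :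
    Function.Injective (fun i => eH G v i) := by
  intro i i' h
  have h1 := Coprod.inr_injective (M := G) h
  have h2 := FreeGroup.of_injective h1
  simpa using h2

theorem emb_inj_z {G : Type u} [Group G] {I : Type u} (v : I) (r : I → Bool) :
    Function.Injective (fun i => zH G v i (r i)) := by
  intro i i' h
  have h1 := Coprod.inr_injective (M := G) h
  have h2 := FreeGroup.of_injective h1
  simp only [Prod.mk.injEq, true_and] at h2
  exact h2.1

theorem local' (ha : S_AMALG.{u}) (hp : S_P.{u}) : S_LOCAL.{u} := by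
  intro κ I hκ hI G _ N hN M _ j hj x r
  obtain ⟨P, _, h, m, ψ, hh, hm, hψ, hcomp, hgen, hψf, hψt, hstab, hmal, hG, hz⟩ :=
    hp κ I hκ hI G N hN M j hj x r
  obtain ⟨K, _, a, b, hainj, hbinj, hab, hgenK, -, hfac, hmalK⟩ :=
    ha (CC I) P (WW I) ψ SemidirectProduct.inl hψ SemidirectProduct.inl_injective
  have hI' : Nonempty I := by
    rw [← Cardinal.mk_ne_zero_iff]
    exact (lt_of_le_of_lt zero_le hI).ne'
  obtain ⟨i0⟩ := hI'
  have hrange : ∀ k : K, k ∈ (a.comp h).range → k ∈ a.range := by
    rintro _ ⟨y, rfl⟩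
    exact ⟨h y, rfl⟩
  have hback : ∀ p : P, a p ∈ (a.comp h).range → p ∈ h.range := by
    rintro p ⟨y, hy⟩
    exact ⟨y, hainj hy⟩
  have hset : ∀ (S : Set (HG G I)), κ < #S → ∀ p : P,
      (∀ s ∈ S, (a p)⁻¹ * a (h s) * a p ∈ (a.comp h).range) → a p ∈ (a.comp h).range := by
    intro S hS p hS'
    obtain ⟨y, hy⟩ := hstab S hS p (fun s hs => hback _ (by
      rw [map_mul, map_mul, map_inv]
      exact hS' s hs))
    exact ⟨y, by rw [MonoidHom.comp_apply, hy]⟩
  refine ⟨K, inferInstance, a.comp h, a.comp m, b (tW I), hainj.comp hh, hainj.comp hm, ?_, ?_,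
    ?_, ?_, ?_, ?_⟩
  · intro n
    simp [hcomp]
  · -- generation
    set T := Subgroup.closure (Set.range (a.comp h) ∪ Set.range (a.comp m) ∪ {b (tW I)})
    have h1 : a.range ≤ T := by
      rw [MonoidHom.range_eq_map, ← hgen, MonoidHom.map_closure]
      refine Subgroup.closure_mono ?_
      rintro _ ⟨p, (⟨y, rfl⟩ | ⟨y, rfl⟩), rfl⟩
      · exact Or.inl (Or.inl ⟨y, rfl⟩)
      · exact Or.inl (Or.inr ⟨y, rfl⟩)
    have h2 : b.range ≤ T := by
      rw [MonoidHom.range_eq_map, ← closure_WW, MonoidHom.map_closure, Subgroup.closure_le]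
      rintro _ ⟨w, (⟨c, rfl⟩ | rfl), rfl⟩
      · rw [← hab]
        exact h1 ⟨_, rfl⟩
      · exact Subgroup.subset_closure (Or.inr rfl)
    rw [eq_top_iff, ← hgenK, Subgroup.closure_le]
    rintro _ (⟨p, rfl⟩ | ⟨w, rfl⟩)
    · exact h1 ⟨p, rfl⟩
    · exact h2 ⟨w, rfl⟩
  · intro v i
    simp only [MonoidHom.comp_apply]
    rw [← hψf, hab, ← map_inv, ← map_mul, ← map_mul, tW_conj, swapC_of, ← hab]
    simp [hψt]
  · -- (i)
    intro S hS k hk
    obtain ⟨s, hs, hs1⟩ : ∃ s ∈ S, s ≠ 1 := by
      by_contra hcon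
      push Not at hcon
      have hsub : S ⊆ {1} := fun s hs => hcon s hs
      have h1 : #S ≤ 1 := by
        refine le_trans (Cardinal.mk_le_mk_of_subset hsub) ?_
        simp
      exact absurd (lt_of_lt_of_le hS h1) (not_lt.2 (Cardinal.one_le_aleph0.trans hκ))
    have hkP : k ∈ a.range := by
      refine hfac {h (Coprod.inl s)} (fun p => ⟨_, rfl, hG p s hs1⟩) k ?_
      rintro _ rfl
      exact hrange _ (hk s hs)
    obtain ⟨p, rfl⟩ := hkP
    refine hset (Coprod.inl '' S) ?_ p ?_
    · rw [Cardinal.mk_image_eq Coprod.inl_injective]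
      exact hS
    · rintro _ ⟨s, hs, rfl⟩
      exact hk s hs
  · -- (ii)
    intro v k hk
    have hc : (FreeGroup.of ((v, i0), false) : CC I) ≠ 1 := FreeGroup.of_ne_one _
    have h1 := hmalK hmal (tW I) tW_cases _ hc k (by
      rw [hψf]
      exact hrange _ (hk i0))
    rcases h1 with ⟨p, rfl⟩ | ⟨p, rfl⟩
    · left
      refine hset (Set.range fun i => eH G v i) ?_ p ?_
      · rw [Cardinal.mk_range_eq _ (emb_inj_e v)]
        exact hI
      · rintro _ ⟨i, rfl⟩
        exact hk i
    · right
      have key : a ((m (x v))⁻¹ * p) ∈ (a.comp h).range := by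
        refine hset (Set.range fun i => zH G v i (r i)) ?_ _ ?_
        · rw [Cardinal.mk_range_eq _ (emb_inj_z v r)]
          exact hI
        · rintro _ ⟨i, rfl⟩
          have h2 := hk i
          simp only [MonoidHom.comp_apply] at h2
          have h3 : (b (tW I) * a p)⁻¹ * a (h (eH G v i)) * (b (tW I) * a p) =
              (a p)⁻¹ * a (m (x v) * h (zH G v i (r i)) * (m (x v))⁻¹) * a p := by
            rw [← hψf, hab, ← hψt, hab]
            have h4 := tW_conj (I := I) (FreeGroup.of ((v, i), false))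
            rw [swapC_of] at h4
            simp only [Bool.not_false] at h4
            rw [← h4]
            simp only [map_mul, map_inv, mul_inv_rev, mul_assoc]
          rw [h3] at h2
          convert h2 using 1
          simp only [map_mul, map_inv, mul_inv_rev, inv_inv, mul_assoc]
      refine ⟨_, key, ?_⟩
      simp only [map_mul, map_inv, MonoidHom.comp_apply, mul_assoc, mul_inv_cancel_left]
  · -- (iii)
    intro v r' hr k hk
    obtain ⟨i1, hi1⟩ : ∃ i, r' i ≠ r i := by
      by_contra hcon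
      push Not at hcon
      exact hr (funext hcon)
    have hkP : k ∈ a.range := by
      refine hfac {h (zH G v i1 (r' i1))} (fun p => ⟨_, rfl, hz p v i1 (r' i1) hi1⟩) k ?_
      rintro _ rfl
      exact hrange _ (hk i1)
    obtain ⟨p, rfl⟩ := hkP
    refine hset (Set.range fun i => zH G v i (r' i)) ?_ p ?_
    · rw [Cardinal.mk_range_eq _ (emb_inj_z v r')]
      exact hI
    · rintro _ ⟨i, rfl⟩
      exact hk i

end Pool.Agent.Q22.EC
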