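import Pool.Agent.Q22.EC.Iter
import Pool.Agent.Q22.EC.Local
import Pool.Agent.Q176.EC.P
import Pool.Agent.Q177.EC.Amalg
import Pool.Agent.Q110.EC.Cop
import Pool.Agent.Q110.EC.Amalgi
import Pool.Agent.Q34.EC.Sys
import Pool.Agent.Q34.EC.Tower
import Pool.Agent.Q34.EC.Fin
import Pool.Agent.Q190.EC.Step

/-! The assembly. -/

universe u

namespace Pool.Agent.Q22.EC

theorem main : S_FINAL.{u} :=
  have hp : S_P.{u} := Pool.Agent.Q176.EC.p Pool.Agent.Q177.EC.amalg Pool.Agent.Q110.EC.cop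
  have hl : S_LOCAL.{u} := local' Pool.Agent.Q177.EC.amalg hp
  have hs : S_STEP.{u} :=
    Pool.Agent.Q190.EC.step hl Pool.Agent.Q110.EC.amalgi Pool.Agent.Q110.EC.cop
      Pool.Agent.Q34.EC.sys
  Pool.Agent.Q34.EC.final (Pool.Agent.Q34.EC.tower hs Iter.iter)

end Pool.Agent.Q22.EC
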