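import Mathlib

/-!
# κ-existentially closed groups with few automorphisms (MP_cb6149_al)

Definitions and statements of the lemma jobs. Paper proof: see `Pool/Agent/Q22/EC/Stm.lean`.
-/

universe u

namespace Pool.Agent.Q22.EC

open Cardinal Monoid

/-- a system of conditions over `G` with variables `V`, indexed by `V`: for `q : V` a word `(c q).1`
with coefficients in `G` and variables in `V`; `(c q).2 = true` means the equation `(c q).1 = 1`,
`(c q).2 = false` the inequation `(c q).1 ≠ 1` -/
abbrev Sys (G : Type u) [Group G] (V : Type u) : Type u :=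
  V → Coprod G (FreeGroup V) × Bool

/-- the assignment `a` solves the system `c` in `H` (along `ι : G →* H`) -/
def Solves {G H V : Type u} [Group G] [Group H] (ι : G →* H) (a : V → H) (c : Sys G V) : Prop :=
  ∀ q, (Coprod.lift ι (FreeGroup.lift a) (c q).1 = 1 ↔ (c q).2 = true)

/-- the system `c` over `G` is solvable in some group containing `G` -/
def Solvable {G V : Type u} [Group G] (c : Sys G V) : Prop :=
  ∃ (H : Type u) (_ : Group H) (ι : G →* H) (a : V → H), Function.Injective ι ∧ Solves ι a c

/-- one extension step `ι : G → G'` -/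
structure StepRel (κ : Cardinal.{u}) (I V : Type u) {G G' : Type u} [Group G] [Group G']
    (ι : G →* G') (D : Set G') (E : I → Set G') : Prop where
  inj : Function.Injective ι
  cardD : #D ≤ #I
  sub : ∀ v, E v ⊆ D
  big : ∀ v, κ < #(E v)
  large : 2 ^ #I ≤ #G'
  /-- every solvable system over `G` is solved in `G'` -/
  solve : ∀ c : Sys G V, Solvable c → ∃ a : V → G', Solves ι a c
  /-- `G'` is determined by `G` and `D` in every group in which the centralizers of the `E v` are
  trivial -/
  det : ∀ (L : Type u) [Group L] (j : G' →* L) (φ : L →* L),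
    (∀ v l, (∀ s ∈ E v, l * j s = j s * l) → l = 1) →
    (∀ g, φ (j (ι g)) = j (ι g)) → (∀ d ∈ D, φ (j d) = j d) → ∀ g, φ (j g) = j g
  cent : ∀ v g, (∀ s ∈ E v, g * s = s * g) → g = 1
  stab : ∀ S : Set G, κ < #S → ∀ g : G', (∀ s ∈ S, g * ι s = ι s * g) → g ∈ ι.range

/-- `G` is `κ`-existentially closed -/
def IsEC (κ : Cardinal.{u}) (G : Type u) [Group G] : Prop :=
  ∀ (X : Type u) (Eqs Neqs : Set (Coprod G (FreeGroup X))), #Eqs < κ → #Neqs < κ →
    (∃ (H : Type u) (_ : Group H) (ι : G →* H) (a : X → H), Function.Injective ι ∧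
      (∀ w ∈ Eqs, Coprod.lift ι (FreeGroup.lift a) w = 1) ∧
      (∀ w ∈ Neqs, Coprod.lift ι (FreeGroup.lift a) w ≠ 1)) →
    ∃ a : X → G, (∀ w ∈ Eqs, Coprod.lift (MonoidHom.id G) (FreeGroup.lift a) w = 1) ∧
      (∀ w ∈ Neqs, Coprod.lift (MonoidHom.id G) (FreeGroup.lift a) w ≠ 1)

/-! ### The base group `H = G * F` of one step -/

/-- the basis of `F` -/
abbrev Idx (I : Type u) : Type u := I × I × Option Bool

/-- `H = G * F` with `F` free on `I × I × Option Bool` -/
abbrev HG (G I : Type u) [Group G] : Type u := Coprod G (FreeGroup (Idx I))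

/-- the basis elements `e_{v,i}` -/
def eH (G : Type u) [Group G] {I : Type u} (v i : I) : HG G I :=
  Coprod.inr (FreeGroup.of (v, i, none))

/-- the basis elements `z_{v,i,b}` -/
def zH (G : Type u) [Group G] {I : Type u} (v i : I) (b : Bool) : HG G I :=
  Coprod.inr (FreeGroup.of (v, i, some b))

/-- `C`, the free group on the `e_{v,i}` (`false`) and the `x_v z_{v,i,r i} x_v⁻¹` (`true`) -/
abbrev CC (I : Type u) : Type u := FreeGroup ((I × I) × Bool)

end Pool.Agent.Q22.EC
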