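import Pool.Agent.Q22.EC.Stm

/-!
Transfinite iteration of group extensions (JOB ITER): `theorem iter : S_ITER`.
All stages are realized on subsets of one type `Option (J × Λ)`; a stage is the graph of its
multiplication, so unions of stages are unions of sets.
-/

universe u

namespace Pool.Agent.Q22.EC.Iter

open Cardinal

variable {𝕌 : Type u}

/-- the carrier of a multiplication graph -/
def car (μ : Set (𝕌 × 𝕌 × 𝕌)) : Set 𝕌 := {x | ∃ y z, (x, y, z) ∈ μ}

/-- `μ` is the graph of the multiplication of a group on `car μ` with unit `pt` -/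
structure IsPG (pt : 𝕌) (μ : Set (𝕌 × 𝕌 × 𝕌)) : Prop where
  pt_mem : (pt, pt, pt) ∈ μ
  closed : ∀ x y z, (x, y, z) ∈ μ → y ∈ car μ ∧ z ∈ car μ
  ex : ∀ x ∈ car μ, ∀ y ∈ car μ, ∃ z, (x, y, z) ∈ μ
  uniq : ∀ x y z z', (x, y, z) ∈ μ → (x, y, z') ∈ μ → z = z'
  assoc : ∀ x y z a b c, (x, y, a) ∈ μ → (a, z, b) ∈ μ → (y, z, c) ∈ μ → (x, c, b) ∈ μ
  one_mul : ∀ x ∈ car μ, (pt, x, x) ∈ μ
  inv : ∀ x ∈ car μ, ∃ y ∈ car μ, (y, x, pt) ∈ μ

theorem car_mono {μ ν : Set (𝕌 × 𝕌 × 𝕌)} (h : μ ⊆ ν) : car μ ⊆ car ν :=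
  fun _ ⟨y, z, hx⟩ => ⟨y, z, h hx⟩

theorem mem_car {μ : Set (𝕌 × 𝕌 × 𝕌)} {x y z : 𝕌} (h : (x, y, z) ∈ μ) : x ∈ car μ := ⟨y, z, h⟩

section group

variable {pt : 𝕌} {μ : Set (𝕌 × 𝕌 × 𝕌)} (h : IsPG pt μ)

/-- multiplication -/
noncomputable def mulF (h : IsPG pt μ) (x y : car μ) : car μ :=
  ⟨(h.ex x x.2 y y.2).choose, (h.closed _ _ _ (h.ex x x.2 y y.2).choose_spec).2⟩

theorem mulF_spec (x y : car μ) : ((x : 𝕌), (y : 𝕌), (mulF h x y : 𝕌)) ∈ μ :=
  (h.ex x x.2 y y.2).choose_spec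

theorem mulF_eq {x y z : car μ} (hz : ((x : 𝕌), (y : 𝕌), (z : 𝕌)) ∈ μ) : mulF h x y = z :=
  Subtype.ext (h.uniq _ _ _ _ (mulF_spec h x y) hz)

/-- the group -/
noncomputable def grp : Group (car μ) :=
  letI : Mul (car μ) := ⟨mulF h⟩
  letI : One (car μ) := ⟨⟨pt, mem_car h.pt_mem⟩⟩
  letI : Inv (car μ) := ⟨fun x => ⟨(h.inv x x.2).choose, (h.inv x x.2).choose_spec.1⟩⟩
  Group.ofLeftAxioms
    (fun x y z => by
      show mulF h (mulF h x y) z = mulF h x (mulF h y z)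
      symm
      apply mulF_eq
      exact h.assoc _ _ _ _ _ _ (mulF_spec h x y) (mulF_spec h _ z) (mulF_spec h y z))
    (fun x => by
      show mulF h ⟨pt, mem_car h.pt_mem⟩ x = x
      exact mulF_eq h (h.one_mul x x.2))
    (fun x => by
      show mulF h ⟨(h.inv x x.2).choose, (h.inv x x.2).choose_spec.1⟩ x = ⟨pt, mem_car h.pt_mem⟩
      exact mulF_eq h (h.inv x x.2).choose_spec.2)

end group

/-- the union of a nonempty chain -/
theorem isPG_sUnion {pt : 𝕌} (F : Set (Set (𝕌 × 𝕌 × 𝕌))) (hne : F.Nonempty)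
    (hF : ∀ μ ∈ F, IsPG pt μ) (hc : ∀ μ ∈ F, ∀ ν ∈ F, μ ⊆ ν ∨ ν ⊆ μ) : IsPG pt (⋃₀ F) := by
  have hsub : ∀ μ ∈ F, car μ ⊆ car (⋃₀ F) := fun μ hμ => car_mono (Set.subset_sUnion_of_mem hμ)
  have hcar : ∀ x ∈ car (⋃₀ F), ∃ μ ∈ F, x ∈ car μ := by
    rintro x ⟨y, z, μ, hμ, hxyz⟩
    exact ⟨μ, hμ, y, z, hxyz⟩
  have h2 : ∀ μ ∈ F, ∀ ν ∈ F, ∃ ρ ∈ F, μ ⊆ ρ ∧ ν ⊆ ρ := by
    intro μ hμ ν hν
    rcases hc μ hμ ν hν with h | h
    · exact ⟨ν, hν, h, le_rfl⟩
    · exact ⟨μ, hμ, le_rfl, h⟩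
  refine ⟨?_, ?_, ?_, ?_, ?_, ?_, ?_⟩
  · obtain ⟨μ, hμ⟩ := hne
    exact ⟨μ, hμ, (hF μ hμ).pt_mem⟩
  · rintro x y z ⟨μ, hμ, h⟩
    exact ⟨hsub μ hμ ((hF μ hμ).closed _ _ _ h).1, hsub μ hμ ((hF μ hμ).closed _ _ _ h).2⟩
  · intro x hx y hy
    obtain ⟨μ, hμ, hx⟩ := hcar x hx
    obtain ⟨ν, hν, hy⟩ := hcar y hy
    obtain ⟨ρ, hρ, h1, h2⟩ := h2 μ hμ ν hν
    obtain ⟨z, hz⟩ := (hF ρ hρ).ex x (car_mono h1 hx) y (car_mono h2 hy)
    exact ⟨z, ρ, hρ, hz⟩
  · rintro x y z z' ⟨μ, hμ, h⟩ ⟨ν, hν, h'⟩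
    obtain ⟨ρ, hρ, h1, h2⟩ := h2 μ hμ ν hν
    exact (hF ρ hρ).uniq _ _ _ _ (h1 h) (h2 h')
  · rintro x y z a b c ⟨μ, hμ, h⟩ ⟨ν, hν, h'⟩ ⟨θ, hθ, h''⟩
    obtain ⟨ρ, hρ, h1, h2'⟩ := h2 μ hμ ν hν
    obtain ⟨ρ', hρ', h3, h4⟩ := h2 ρ hρ θ hθ
    exact ⟨ρ', hρ', (hF ρ' hρ').assoc _ _ _ _ _ _ (h3 (h1 h)) (h3 (h2' h')) (h4 h'')⟩
  · intro x hx
    obtain ⟨μ, hμ, hx⟩ := hcar x hx
    exact ⟨μ, hμ, (hF μ hμ).one_mul x hx⟩
  · intro x hx
    obtain ⟨μ, hμ, hx⟩ := hcar x hx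
    obtain ⟨y, hy, hyx⟩ := (hF μ hμ).inv x hx
    exact ⟨y, hsub μ hμ hy, μ, hμ, hyx⟩

/-- the trivial group on `pt` -/
theorem isPG_triv (pt : 𝕌) : IsPG pt {(pt, pt, pt)} := by
  have hc : ∀ x, x ∈ car ({(pt, pt, pt)} : Set (𝕌 × 𝕌 × 𝕌)) → x = pt := by
    rintro x ⟨y, z, h⟩
    simp only [Set.mem_singleton_iff, Prod.mk.injEq] at h
    exact h.1
  have hm : pt ∈ car ({(pt, pt, pt)} : Set (𝕌 × 𝕌 × 𝕌)) := ⟨pt, pt, rfl⟩
  refine ⟨rfl, ?_, ?_, ?_, ?_, ?_, ?_⟩
  · rintro x y z h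
    simp only [Set.mem_singleton_iff, Prod.mk.injEq] at h
    obtain ⟨rfl, rfl, rfl⟩ := h
    exact ⟨hm, hm⟩
  · intro x hx y hy
    rw [hc x hx, hc y hy]
    exact ⟨pt, rfl⟩
  · rintro x y z z' h h'
    simp only [Set.mem_singleton_iff, Prod.mk.injEq] at h h'
    rw [h.2.2, h'.2.2]
  · rintro x y z a b c h h' h''
    simp only [Set.mem_singleton_iff, Prod.mk.injEq] at h h' h'' ⊢
    exact ⟨h.1, h''.2.2, h'.2.2⟩
  · intro x hx
    rw [hc x hx]
    rfl
  · intro x hx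
    rw [hc x hx]
    exact ⟨pt, hm, rfl⟩

/-- transport of a group along an injection -/
theorem isPG_range {G : Type u} [Group G] (e : G → 𝕌) (he : Function.Injective e) :
    IsPG (e 1) {t | ∃ a b : G, t = (e a, e b, e (a * b))} ∧
      car {t | ∃ a b : G, t = (e a, e b, e (a * b))} = Set.range e := by
  have hcar : car {t | ∃ a b : G, t = (e a, e b, e (a * b))} = Set.range e := by
    ext x
    constructor
    · rintro ⟨y, z, a, b, h⟩
      simp only [Prod.mk.injEq] at h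
      exact ⟨a, h.1.symm⟩
    · rintro ⟨a, rfl⟩
      exact ⟨e 1, e (a * 1), a, 1, rfl⟩
  refine ⟨⟨?_, ?_, ?_, ?_, ?_, ?_, ?_⟩, hcar⟩
  · exact ⟨1, 1, by simp⟩
  · rintro x y z ⟨a, b, h⟩
    rw [hcar]
    simp only [Prod.mk.injEq] at h
    exact ⟨⟨b, h.2.1.symm⟩, ⟨a * b, h.2.2.symm⟩⟩
  · intro x hx y hy
    rw [hcar] at hx hy
    obtain ⟨a, rfl⟩ := hx
    obtain ⟨b, rfl⟩ := hy
    exact ⟨_, a, b, rfl⟩
  · rintro x y z z' ⟨a, b, h⟩ ⟨a', b', h'⟩
    simp only [Prod.mk.injEq] at h h'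
    have h1 : a = a' := he (h.1.symm.trans h'.1)
    have h2 : b = b' := he (h.2.1.symm.trans h'.2.1)
    rw [h.2.2, h'.2.2, h1, h2]
  · rintro x y z a b c ⟨x1, y1, h⟩ ⟨a1, z1, h'⟩ ⟨y2, z2, h''⟩
    simp only [Prod.mk.injEq] at h h' h''
    have e1 : a1 = x1 * y1 := he (h'.1.symm.trans h.2.2)
    have e2 : y2 = y1 := he (h''.1.symm.trans h.2.1)
    have e3 : z2 = z1 := he (h''.2.1.symm.trans h'.2.1)
    refine ⟨x1, y1 * z1, ?_⟩
    rw [h.1, h''.2.2, h'.2.2, e1, e2, e3, mul_assoc]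
  · intro x hx
    rw [hcar] at hx
    obtain ⟨a, rfl⟩ := hx
    exact ⟨1, a, by simp⟩
  · intro x hx
    rw [hcar] at hx
    obtain ⟨a, rfl⟩ := hx
    refine ⟨e a⁻¹, ?_, a⁻¹, a, by simp⟩
    rw [hcar]
    exact ⟨a⁻¹, rfl⟩

section construction

variable (J : Type u) [LinearOrder J] [WellFoundedLT J] (L : Type u)
variable (R : ∀ (G G' : Type u) [Group G] [Group G'], (G →* G') → Prop)

/-- the ambient type -/
abbrev UU : Type u := Option (J × L)

/-- the room below `j` -/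
def below (j : J) : Set (UU J L) := {x | ∀ i l, x = some (i, l) → i < j}

/-- `μ'` is a good stage `j` over `ν` -/
def Good (j : J) (ν μ' : Set (UU J L × UU J L × UU J L)) : Prop :=
  IsPG none μ' ∧ ν ⊆ μ' ∧ (∀ x ∈ car μ', ∀ i l, x = some (i, l) → i ≤ j) ∧
    ∃ (G G' : Type u) (_ : Group G) (_ : Group G') (ι : G →* G') (e : G' → UU J L),
      R G G' ι ∧ Function.Injective ι ∧ Function.Injective e ∧
      Set.range (fun g => e (ι g)) = car ν ∧ Set.range e = car μ' ∧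
      ∀ a b, (e a, e b, e (a * b)) ∈ μ'

variable {J L R}

theorem exists_good {lam : Cardinal.{u}} (hL : lam = #L) (hU : #(UU J L) ≤ lam)
    (hstep : ∀ (G : Type u) [Group G], #G ≤ lam →
      ∃ (G' : Type u) (_ : Group G') (ι : G →* G'), Function.Injective ι ∧ #G' ≤ lam ∧
        R G G' ι) (j : J) (ν : Set (UU J L × UU J L × UU J L)) (hν : IsPG none ν)
    (hb : car ν ⊆ below J L j) : ∃ μ', Good J L R j ν μ' := by
  classical
  letI := grp hν
  obtain ⟨G', _, ι, hι, hc, hR⟩ := hstep (car ν) (le_trans (Cardinal.mk_set_le _) hU)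
  obtain ⟨f⟩ : Nonempty (G' ↪ L) := by
    rw [hL] at hc
    exact hc
  let e : G' → UU J L := fun g => if h : ∃ x : car ν, ι x = g then (h.choose : UU J L)
    else some (j, f g)
  have he1 : ∀ x : car ν, e (ι x) = x := by
    intro x
    have h : ∃ y : car ν, ι y = ι x := ⟨x, rfl⟩
    show (if h : ∃ y : car ν, ι y = ι x then (h.choose : UU J L) else some (j, f (ι x))) = x
    rw [dif_pos h]
    exact congrArg Subtype.val (hι h.choose_spec)
  have he2 : ∀ g, (¬ ∃ x : car ν, ι x = g) → e g = some (j, f g) := by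
    intro g hg
    show (if h : ∃ y : car ν, ι y = g then (h.choose : UU J L) else some (j, f g)) = _
    rw [dif_neg hg]
  have hnew : ∀ g, e g = some (j, f g) → ∀ x : car ν, (x : UU J L) ≠ some (j, f g) := by
    intro g _ x hx
    exact lt_irrefl j (hb x.2 j (f g) hx)
  have hinj : Function.Injective e := by
    intro a b hab
    by_cases ha : ∃ x : car ν, ι x = a
    · obtain ⟨x, rfl⟩ := ha
      by_cases hb' : ∃ x : car ν, ι x = b
      · obtain ⟨y, rfl⟩ := hb'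
        rw [he1, he1] at hab
        rw [Subtype.ext hab]
      · rw [he1, he2 b hb'] at hab
        exact absurd hab (hnew b (he2 b hb') x)
    · by_cases hb' : ∃ x : car ν, ι x = b
      · obtain ⟨y, rfl⟩ := hb'
        rw [he1, he2 a ha] at hab
        exact absurd hab.symm (hnew a (he2 a ha) y)
      · rw [he2 a ha, he2 b hb'] at hab
        simp only [Option.some.injEq, Prod.mk.injEq, true_and] at hab
        exact f.injective hab
  have hone : e 1 = none := by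
    rw [← map_one ι, he1]
    rfl
  obtain ⟨hP, hcar⟩ := isPG_range e hinj
  rw [hone] at hP
  refine ⟨{t | ∃ a b : G', t = (e a, e b, e (a * b))}, hP, ?_, ?_, ?_⟩
  · rintro ⟨x, y, z⟩ hxyz
    have hx : x ∈ car ν := mem_car hxyz
    have hy := (hν.closed _ _ _ hxyz).1
    have hz := (hν.closed _ _ _ hxyz).2
    refine ⟨ι ⟨x, hx⟩, ι ⟨y, hy⟩, ?_⟩
    rw [← map_mul, he1, he1, he1]
    have : (⟨x, hx⟩ : car ν) * ⟨y, hy⟩ = ⟨z, hz⟩ := mulF_eq hν hxyz
    rw [this]
  · intro x hx i l hxl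
    rw [hcar] at hx
    obtain ⟨g, rfl⟩ := hx
    by_cases hg : ∃ x : car ν, ι x = g
    · obtain ⟨y, rfl⟩ := hg
      rw [he1] at hxl
      exact le_of_lt (hb y.2 i l hxl)
    · rw [he2 g hg] at hxl
      simp only [Option.some.injEq, Prod.mk.injEq] at hxl
      exact hxl.1 ▸ le_rfl
  · refine ⟨car ν, G', inferInstance, inferInstance, ι, e, hR, hι, hinj, ?_, hcar.symm, ?_⟩
    · ext x
      constructor
      · rintro ⟨y, rfl⟩
        show e (ι y) ∈ _
        rw [he1]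
        exact y.2
      · intro hx
        exact ⟨⟨x, hx⟩, he1 _⟩
    · intro a b
      exact ⟨a, b, rfl⟩

variable (J L R)

open Classical in
/-- one step -/
noncomputable def stepS (j : J) (ν : Set (UU J L × UU J L × UU J L)) :
    Set (UU J L × UU J L × UU J L) :=
  if h : ∃ μ', Good J L R j ν μ' then h.choose else ν

/-- the stages -/
noncomputable def stage : J → Set (UU J L × UU J L × UU J L) :=
  WellFounded.fix (wellFounded_lt (α := J))
    (fun j prev => stepS J L R j (⋃₀ ({{(none, none, none)}} ∪ {μ | ∃ i, ∃ h : i < j, μ = prev i h})))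

/-- the union of the earlier stages -/
def pre (j : J) : Set (UU J L × UU J L × UU J L) :=
  ⋃₀ ({{(none, none, none)}} ∪ {μ | ∃ i, i < j ∧ μ = stage J L R i})

theorem stage_eq (j : J) : stage J L R j = stepS J L R j (pre J L R j) := by
  unfold stage pre
  rw [WellFounded.fix_eq]
  congr 3
  ext μ
  simp only [exists_prop, Set.mem_setOf_eq]
  rfl

variable {J L R}

theorem main_ind {lam : Cardinal.{u}} (hL : lam = #L) (hU : #(UU J L) ≤ lam)
    (hstep : ∀ (G : Type u) [Group G], #G ≤ lam →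
      ∃ (G' : Type u) (_ : Group G') (ι : G →* G'), Function.Injective ι ∧ #G' ≤ lam ∧
        R G G' ι) (j : J) : Good J L R j (pre J L R j) (stage J L R j) := by
  induction j using WellFoundedLT.induction with
  | ind j ih =>
    have hsub : ∀ i i', i < i' → stage J L R i ⊆ pre J L R i' := by
      intro i i' hi
      exact Set.subset_sUnion_of_mem (Or.inr ⟨i, hi, rfl⟩)
    have hP : IsPG none (pre J L R j) := by
      refine isPG_sUnion _ ⟨_, Or.inl rfl⟩ ?_ ?_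
      · rintro μ (rfl | ⟨i, hi, rfl⟩)
        · exact isPG_triv _
        · exact (ih i hi).1
      · rintro μ (rfl | ⟨i, hi, rfl⟩) ν (rfl | ⟨i', hi', rfl⟩)
        · exact Or.inl le_rfl
        · left
          rintro x rfl
          exact (ih i' hi').1.pt_mem
        · right
          rintro x rfl
          exact (ih i hi).1.pt_mem
        · rcases lt_trichotomy i i' with h | h | h
          · exact Or.inl ((hsub i i' h).trans (ih i' hi').2.1)
          · subst h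
            exact Or.inl le_rfl
          · exact Or.inr ((hsub i' i h).trans (ih i hi).2.1)
    have hb : car (pre J L R j) ⊆ below J L j := by
      rintro x ⟨y, z, μ, (rfl | ⟨i, hi, rfl⟩), h⟩ i' l hx
      · simp only [Set.mem_singleton_iff, Prod.mk.injEq] at h
        rw [h.1] at hx
        exact absurd hx (by simp)
      · exact lt_of_le_of_lt ((ih i hi).2.2.1 x (mem_car h) i' l hx) hi
    rw [stage_eq]
    unfold stepS
    have hex := exists_good (R := R) hL hU hstep j (pre J L R j) hP hb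
    rw [dif_pos hex]
    exact hex.choose_spec

end construction

theorem iter : S_ITER.{u} := by
  intro J _ _ _ lam hlam hJ R hstep
  classical
  let L : Type u := lam.out
  have hL : lam = #L := (Cardinal.mk_out lam).symm
  have hU : #(UU J L) ≤ lam := by
    rw [Cardinal.mk_option, Cardinal.mk_prod, Cardinal.lift_id, Cardinal.lift_id, ← hL]
    calc #J * lam + 1 ≤ lam * lam + lam :=
          add_le_add (mul_le_mul_left hJ lam) (Cardinal.one_le_aleph0.trans hlam)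
      _ = lam := by rw [Cardinal.mul_eq_self hlam, Cardinal.add_eq_self hlam]
  have hgood := fun j => main_ind (R := R) hL hU hstep j
  let F : Set (Set (UU J L × UU J L × UU J L)) :=
    {{(none, none, none)}} ∪ {μ | ∃ i, μ = stage J L R i}
  have hsub : ∀ i i', i < i' → stage J L R i ⊆ stage J L R i' := by
    intro i i' hi
    exact (Set.subset_sUnion_of_mem (Or.inr ⟨i, hi, rfl⟩)).trans (hgood i').2.1
  have hP : IsPG none (⋃₀ F) := by
    refine isPG_sUnion _ ⟨_, Or.inl rfl⟩ ?_ ?_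
    · rintro μ (rfl | ⟨i, rfl⟩)
      · exact isPG_triv _
      · exact (hgood i).1
    · rintro μ (rfl | ⟨i, rfl⟩) ν (rfl | ⟨i', rfl⟩)
      · exact Or.inl le_rfl
      · left
        rintro x rfl
        exact (hgood i').1.pt_mem
      · right
        rintro x rfl
        exact (hgood i).1.pt_mem
      · rcases lt_trichotomy i i' with h | h | h
        · exact Or.inl (hsub i i' h)
        · subst h
          exact Or.inl le_rfl
        · exact Or.inr (hsub i' i h)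
  have hst : ∀ i, stage J L R i ⊆ ⋃₀ F := fun i => Set.subset_sUnion_of_mem (Or.inr ⟨i, rfl⟩)
  letI gG : Group (car (⋃₀ F)) := grp hP
  have hmul : ∀ x y z : car (⋃₀ F), ((x : UU J L), (y : UU J L), (z : UU J L)) ∈ ⋃₀ F →
      x * y = z := fun x y z h => mulF_eq hP h
  have hone : ((1 : car (⋃₀ F)) : UU J L) = none := rfl
  -- the homs of the stages
  choose G G' gG1 gG2 ι e hR hι he hran1 hran2 hm using fun j => (hgood j).2.2.2
  have hcarst : ∀ j, car (stage J L R j) ⊆ car (⋃₀ F) := fun j => car_mono (hst j)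
  let E : ∀ j, G' j →* car (⋃₀ F) := fun j =>
    MonoidHom.mk' (fun a => ⟨e j a, hcarst j (hran2 j ▸ ⟨a, rfl⟩)⟩) (by
      intro a b
      symm
      apply hmul
      exact hst j (hm j a b))
  have hEinj : ∀ j, Function.Injective (E j) := by
    intro j a b hab
    exact he j (congrArg Subtype.val hab)
  have hErange : ∀ j x, x ∈ (E j).range ↔ (x : UU J L) ∈ car (stage J L R j) := by
    intro j x
    rw [← hran2 j]
    constructor
    · rintro ⟨a, rfl⟩
      exact ⟨a, rfl⟩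
    · rintro ⟨a, ha⟩
      exact ⟨a, Subtype.ext ha⟩
  refine ⟨car (⋃₀ F), gG, fun j => (E j).range, ?_, ?_, le_trans (Cardinal.mk_set_le _) hU, ?_⟩
  · intro i i' hi x hx
    rw [hErange] at hx ⊢
    rcases hi.lt_or_eq with h | h
    · exact car_mono (hsub i i' h) hx
    · exact h ▸ hx
  · rintro ⟨x, y, z, μ, (rfl | ⟨i, rfl⟩), h⟩
    · simp only [Set.mem_singleton_iff, Prod.mk.injEq] at h
      obtain ⟨j⟩ : Nonempty J := inferInstance
      refine ⟨j, (hErange j _).2 ?_⟩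
      show x ∈ _
      rw [h.1]
      exact mem_car (hgood j).1.pt_mem
    · exact ⟨i, (hErange i _).2 (mem_car h)⟩
  · intro j
    refine ⟨G j, G' j, gG1 j, gG2 j, ι j, E j, hR j, hι j, hEinj j, ?_, rfl⟩
    have hkey : ∀ x, x ∈ ((E j).comp (ι j)).range ↔ (x : UU J L) ∈ car (pre J L R j) := by
      intro x
      rw [← hran1 j]
      constructor
      · rintro ⟨a, rfl⟩
        exact ⟨a, rfl⟩
      · rintro ⟨a, ha⟩
        exact ⟨a, Subtype.ext ha⟩
    apply le_antisymm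
    · intro x hx
      rw [hkey] at hx
      obtain ⟨y, z, μ, (rfl | ⟨i, hi, rfl⟩), h⟩ := hx
      · simp only [Set.mem_singleton_iff, Prod.mk.injEq] at h
        have : x = 1 := Subtype.ext (h.1.trans hone.symm)
        rw [this]
        exact one_mem _
      · exact (le_iSup (fun i : {i // i < j} => (E i.1).range) ⟨i, hi⟩)
          ((hErange i x).2 (mem_car h))
    · refine iSup_le fun i x hx => ?_
      rw [hkey]
      rw [hErange] at hx
      exact car_mono (Set.subset_sUnion_of_mem (Or.inr ⟨i.1, i.2, rfl⟩)) hx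

end Pool.Agent.Q22.EC.Iter
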